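import Pool.Agent.H6.NB.Targets

/-!
WLK: the expectation operators (MP_0f8dca_lc).
-/

set_option autoImplicit false

namespace Pool.Agent.H48.NB.WLK

open Finset Pool.Agent.H6.NB

theorem card_r (q : ℕ) : (Fintype.card ((Fin q → Bool) → Bool) : ℝ) = 2 ^ 2 ^ q := by
  rw [Fintype.card_fun, Fintype.card_fun, Fintype.card_bool, Fintype.card_fin]
  push_cast
  ring

theorem stp_le (h1 : T_DIR) (q : ℕ) (δ : ℝ) (hδ : 0 ≤ δ) (hδ2 : δ * √(2 ^ q) ≤ 1 / 2)
    (W : VV q → ℝ) (r : (Fin q → Bool) → Bool) (hW : ∀ v, |W v| ≤ 1) (v : VV q) :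
    |stp q δ W r v| ≤ 1 := by
  unfold stp
  split_ifs with h
  · have h2 : |δ * dir q r v| ≤ 1 / 2 := by
      rw [abs_mul, abs_of_nonneg hδ]
      exact le_trans (mul_le_mul_of_nonneg_left ((h1 q).1 r v) hδ) hδ2
    calc |W v + δ * dir q r v| ≤ |W v| + |δ * dir q r v| := abs_add_le _ _
      _ ≤ 1 / 2 + 1 / 2 := add_le_add (h v) h2
      _ = 1 := by norm_num
  · exact hW v

theorem AA_mono (h1 : T_DIR) (q : ℕ) (δ : ℝ) (hδ : 0 ≤ δ) (hδ2 : δ * √(2 ^ q) ≤ 1 / 2) :
    ∀ (n : ℕ) (G G' : (VV q → ℝ) → ℝ), (∀ W, (∀ v, |W v| ≤ 1) → G W ≤ G' W) →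
    ∀ W, (∀ v, |W v| ≤ 1) → (AA q δ)^[n] G W ≤ (AA q δ)^[n] G' W := by
  intro n
  induction n with
  | zero => intro G G' h W hW; exact h W hW
  | succ n ih =>
    intro G G' h W hW
    rw [Function.iterate_succ_apply', Function.iterate_succ_apply']
    unfold AA
    apply div_le_div_of_nonneg_right _ (by positivity)
    apply Finset.sum_le_sum
    intro r _
    exact ih G G' h _ (stp_le h1 q δ hδ hδ2 W r hW)

theorem AA_sum (q : ℕ) (δ : ℝ) (ι : Type) [Fintype ι] (c : ι → ℝ) (G : ι → (VV q → ℝ) → ℝ) :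
    AA q δ (fun W => ∑ i, c i * G i W) = fun W => ∑ i, c i * AA q δ (G i) W := by
  funext W
  unfold AA
  rw [Finset.sum_comm, Finset.sum_div]
  apply Finset.sum_congr rfl
  intro i _
  rw [← Finset.mul_sum, mul_div_assoc]

theorem AA_const (q : ℕ) (δ : ℝ) (c : ℝ) : AA q δ (fun _ => c) = fun _ => c := by
  funext W
  unfold AA
  rw [Finset.sum_const, Finset.card_univ, nsmul_eq_mul, card_r]
  field_simp

theorem t_wlk (h1 : T_DIR) : T_WLK := by
  intro q δ hδ hδ2
  refine ⟨fun W r hW v => stp_le h1 q δ hδ hδ2 W r hW v, AA_mono h1 q δ hδ hδ2, ?_, ?_⟩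
  · intro n
    induction n with
    | zero => intro ι _ c G W; rfl
    | succ n ih =>
      intro ι _ c G W
      rw [Function.iterate_succ_apply, AA_sum, ih]
      apply Finset.sum_congr rfl
      intro i _
      rw [Function.iterate_succ_apply]
  · intro n
    induction n with
    | zero => intro c W; rfl
    | succ n ih =>
      intro c W
      rw [Function.iterate_succ_apply, AA_const, ih]

end Pool.Agent.H48.NB.WLK
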