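import Pool.Agent.H6.NB.Targets
import Pool.Agent.H48.NB.MUP
import Pool.Agent.H48.NB.WLK

/-!
DIF: formulas do not distinguish the two distributions (MP_0f8dca_lc).
-/

set_option autoImplicit false

namespace Pool.Agent.H48.NB.DIF

open Finset Pool.Agent.H6.NB

theorem AA_of_le (q : ℕ) (δ : ℝ) (G : (VV q → ℝ) → ℝ) (W : VV q → ℝ) (hW : ∀ v, |W v| ≤ 1 / 2) :
    AA q δ G W = (∑ r : (Fin q → Bool) → Bool, G (fun v => W v + δ * dir q r v)) / 2 ^ 2 ^ q := by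
  have h : ∀ r : (Fin q → Bool) → Bool, stp q δ W r = fun v => W v + δ * dir q r v := by
    intro r
    unfold stp
    rw [if_pos hW]
  unfold AA
  simp only [h]

theorem AA_of_not (q : ℕ) (δ : ℝ) (G : (VV q → ℝ) → ℝ) (W : VV q → ℝ)
    (hW : ¬ ∀ v, |W v| ≤ 1 / 2) : AA q δ G W = G W := by
  have h : ∀ r : (Fin q → Bool) → Bool, stp q δ W r = W := by
    intro r
    unfold stp
    rw [if_neg hW]
  unfold AA
  simp only [h]
  rw [Finset.sum_const, Finset.card_univ, nsmul_eq_mul, WLK.card_r]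
  field_simp

theorem iter_add_const (h2 : T_WLK) (q : ℕ) (n : ℕ) (G : (VV q → ℝ) → ℝ) (c : ℝ) (W : VV q → ℝ) :
    (AA q (dl q))^[n] (fun W => G W + c) W = (AA q (dl q))^[n] G W + c := by
  have h := h2 q (dl q) (MUP.dl_nonneg q) (MUP.dl_mul_sqrt q)
  have h3 := h.2.2.1 n Bool (fun _ => 1) (fun b => if b then G else fun _ => c) W
  have e : (fun W : VV q → ℝ => G W + c) = fun W => ∑ b : Bool, (1 : ℝ) *
      (if b then G else fun _ => c) W := by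
    funext W
    rw [Fintype.sum_bool]
    simp
  rw [e, h3, Fintype.sum_bool]
  simp only [if_true, Bool.false_eq_true, if_false, one_mul]
  rw [h.2.2.2 n c W]

theorem step (h2 : T_WLK) (q : ℕ) (n : ℕ) (G : (VV q → ℝ) → ℝ) (B : ℝ)
    (hB : ∀ W, (∀ v, |W v| ≤ 1) → |AA q (dl q) G W - G W| ≤ B) :
    |(AA q (dl q))^[n + 1] G (fun _ => 0) - (AA q (dl q))^[n] G (fun _ => 0)| ≤ B := by
  have h := h2 q (dl q) (MUP.dl_nonneg q) (MUP.dl_mul_sqrt q)
  rw [Function.iterate_succ_apply, abs_le]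
  have h0 : ∀ v : VV q, |(fun _ => (0 : ℝ)) v| ≤ 1 := fun v => by simp
  constructor
  · have h3 := h.2.1 n (fun W => G W + -B) (AA q (dl q) G) (fun W hW => by
      have := (abs_le.1 (hB W hW)).1
      linarith) (fun _ => 0) h0
    rw [iter_add_const h2] at h3
    linarith
  · have h3 := h.2.1 n (AA q (dl q) G) (fun W => G W + B) (fun W hW => by
      have := (abs_le.1 (hB W hW)).2
      linarith) (fun _ => 0) h0
    rw [iter_add_const h2] at h3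
    linarith

theorem total (h2 : T_WLK) (q : ℕ) (G : (VV q → ℝ) → ℝ) (B : ℝ)
    (hB : ∀ W, (∀ v, |W v| ≤ 1) → |AA q (dl q) G W - G W| ≤ B) (n : ℕ) :
    |(AA q (dl q))^[n] G (fun _ => 0) - G (fun _ => 0)| ≤ n * B := by
  induction n with
  | zero => simp
  | succ n ih =>
    have h1 := step h2 q n G B hB
    have h3 := abs_sub_le ((AA q (dl q))^[n + 1] G (fun _ => 0)) ((AA q (dl q))^[n] G (fun _ => 0))
      (G (fun _ => 0))
    push_cast
    linarith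

theorem stepB (h1 : T_STE) (q : ℕ) (F : (VV q → Bool) → ℝ) (Λ : ℝ)
    (hL : ∀ ρ, L12 (rst ρ F) ≤ Λ) (hF : ∀ y, |F y| ≤ 1) (hΛ : 0 ≤ Λ)
    (hx1 : 4 * dl q * (2 ^ q * √(2 ^ q)) ≤ 1) (W : VV q → ℝ) :
    |AA q (dl q) (mle F) W - mle F W| ≤
      4 * dl q ^ 2 * Λ / √(2 ^ q) + (4 * dl q * (2 ^ q * √(2 ^ q))) ^ 3 := by
  by_cases hW : ∀ v, |W v| ≤ 1 / 2
  · rw [AA_of_le q (dl q) (mle F) W hW]
    exact h1 q F Λ (dl q) W hL hF hW (MUP.dl_nonneg q) hx1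
  · rw [AA_of_not q (dl q) (mle F) W hW, sub_self, abs_zero]
    have := MUP.dl_nonneg q
    positivity

theorem num (s e Λ : ℝ) (hs : 32 ≤ s) (he0 : 0 ≤ e) (he1 : e ≤ 1) (he2 : e ^ 2 ≤ 1 / 24)
    (hΛ : 0 ≤ Λ) :
    s ^ 24 * (4 * (e / s ^ 12) ^ 2 * Λ / s + (4 * e / s ^ 9) ^ 3) ≤ (Λ + 1) / s := by
  have hspos : 0 < s := by linarith
  have hs0 := hspos.le
  have e1 : s ^ 24 * (4 * (e / s ^ 12) ^ 2 * Λ / s + (4 * e / s ^ 9) ^ 3) =
      4 * e ^ 2 * Λ / s + 64 * e ^ 3 / s ^ 3 := by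
    field_simp
    ring
  rw [e1, add_div]
  have e2 : 4 * e ^ 2 * Λ / s ≤ Λ / s := by
    apply div_le_div_of_nonneg_right _ hs0
    nlinarith
  have e3 : 64 * e ^ 3 / s ^ 3 ≤ 1 / s := by
    rw [div_le_div_iff₀ (by positivity) hspos]
    have h7 : e ^ 3 ≤ 1 := pow_le_one₀ he0 he1
    have h8 : 64 * e ^ 3 * s ≤ 64 * s := by nlinarith
    have h9 : 64 * s ≤ s ^ 3 := by
      have h10 : (64 : ℝ) ≤ s ^ 2 := by nlinarith
      nlinarith
    linarith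
  linarith

theorem t_dif (h1 : T_STE) (h2 : T_WLK) (h3 : T_MUP) : T_DIF := by
  intro q F Λ hq hL hF
  have hs2 : √(2 ^ q) ^ 2 = (2 : ℝ) ^ q := Real.sq_sqrt (by positivity)
  have hs0 : 0 ≤ √((2 : ℝ) ^ q) := Real.sqrt_nonneg _
  have hq2 : (1024 : ℝ) ≤ 2 ^ q := by
    calc (1024 : ℝ) = 2 ^ 10 := by norm_num
      _ ≤ 2 ^ q := pow_le_pow_right₀ (by norm_num) hq
  have hs32 : 32 ≤ √((2 : ℝ) ^ q) := by nlinarith
  have hspos : 0 < √((2 : ℝ) ^ q) := by linarith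
  have he0 : 0 ≤ √(eps2 q) := Real.sqrt_nonneg _
  have he2 : √(eps2 q) ^ 2 = eps2 q := Real.sq_sqrt (MUP.eps2_nonneg q)
  have hel := MUP.eps2_le q
  have he1 : √(eps2 q) ≤ 1 := by nlinarith
  have hN : (Tn q : ℝ) = √(2 ^ q) ^ 24 := by
    calc (Tn q : ℝ) = (2 ^ q) ^ 12 := by
          unfold Tn
          push_cast
          rw [← pow_mul, mul_comm]
      _ = (√(2 ^ q) ^ 2) ^ 12 := by rw [hs2]
      _ = √(2 ^ q) ^ 24 := by ring
  have hd : dl q = √(eps2 q) / √(2 ^ q) ^ 12 := by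
    unfold dl
    rw [hN, Real.sqrt_div' _ (by positivity)]
    rw [show √((2 : ℝ) ^ q) ^ 24 = (√(2 ^ q) ^ 12) ^ 2 by ring]
    rw [Real.sqrt_sq (by positivity)]
  have hΛ : 0 ≤ Λ := by
    refine le_trans ?_ (hL fun _ => none)
    unfold L12
    exact Finset.sum_nonneg (fun S _ => abs_nonneg _)
  have hx : 4 * dl q * (2 ^ q * √(2 ^ q)) = 4 * √(eps2 q) / √(2 ^ q) ^ 9 := by
    rw [hd, ← hs2]
    field_simp
    rw [Real.sqrt_sq hs0]
  have hx1 : 4 * dl q * (2 ^ q * √(2 ^ q)) ≤ 1 := by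
    rw [hx, div_le_one (by positivity)]
    have h9 : (32 : ℝ) ^ 1 ≤ √(2 ^ q) ^ 9 := by
      calc (32 : ℝ) ^ 1 ≤ √(2 ^ q) ^ 1 := pow_le_pow_left₀ (by norm_num) hs32 1
        _ ≤ √(2 ^ q) ^ 9 := pow_le_pow_right₀ (by linarith) (by norm_num)
    linarith
  have htot := total h2 q (mle F) _ (fun W _ => stepB h1 q F Λ hL hF hΛ hx1 W) (Tn q)
  have hsum : ∑ p, (mu true q p - mu false q p) * F p =
      (AA q (dl q))^[Tn q] (mle F) (fun _ => 0) - mle F (fun _ => 0) := by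
    have e1 := (h3 true q).2.2 F
    have e2 := (h3 false q).2.2 F
    simp only [if_true, Bool.false_eq_true, if_false] at e1 e2
    rw [← e1, ← e2, ← Finset.sum_sub_distrib]
    exact Finset.sum_congr rfl (fun p _ => by ring)
  rw [hsum]
  refine le_trans htot ?_
  rw [hx, hd, hN]
  exact num _ _ Λ hs32 he0 he1 (by rw [he2]; exact hel) hΛ

end Pool.Agent.H48.NB.DIF
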