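import Pool.Agent.H6.NB.Targets
import Pool.Agent.H48.NB.MUP
import Pool.Agent.H48.NB.WLK
import Pool.Agent.H48.NB.DIF

/-!
PHE: the expected forrelation (MP_0f8dca_lc).
-/

set_option autoImplicit false

namespace Pool.Agent.H48.NB.PHE

open Finset Pool.Agent.H6.NB

theorem mle_mul2 (V : Type) [Fintype V] [DecidableEq V] (u v : V) (h : u ≠ v) (W : V → ℝ) :
    mle (fun p : V → Bool => sg (p u) * sg (p v)) W = W u * W v := by
  have h1 := Finset.prod_univ_sum (fun _ : V => (univ : Finset Bool))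
    (fun w b => (1 + sg b * W w) / 2 * ((if w = u then sg b else 1) * (if w = v then sg b else 1)))
  rw [Fintype.piFinset_univ] at h1
  have h2 : mle (fun p : V → Bool => sg (p u) * sg (p v)) W = ∑ y : V → Bool, ∏ w,
      ((1 + sg (y w) * W w) / 2 * ((if w = u then sg (y w) else 1) *
        (if w = v then sg (y w) else 1))) := by
    unfold mle
    apply Finset.sum_congr rfl
    intro y _
    rw [Finset.prod_mul_distrib, Finset.prod_mul_distrib, Finset.prod_ite_eq' univ u,
      Finset.prod_ite_eq' univ v, if_pos (mem_univ _), if_pos (mem_univ _)]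
  rw [h2, ← h1]
  have h3 : ∀ w : V, ∑ b : Bool, (1 + sg b * W w) / 2 * ((if w = u then sg b else 1) *
      (if w = v then sg b else 1)) = (if w = u then W w else 1) * (if w = v then W w else 1) := by
    intro w
    rw [Fintype.sum_bool]
    simp only [sg, if_true, Bool.false_eq_true, if_false]
    by_cases hu : w = u
    · have hv : ¬ w = v := fun hv => h (hu.symm.trans hv)
      rw [if_pos hu, if_pos hu, if_pos hu, if_neg hv, if_neg hv, if_neg hv]
      ring
    · rw [if_neg hu, if_neg hu, if_neg hu]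
      by_cases hv : w = v
      · rw [if_pos hv, if_pos hv, if_pos hv]
        ring
      · rw [if_neg hv, if_neg hv, if_neg hv]
        ring
  rw [Finset.prod_congr rfl (fun w _ => h3 w), Finset.prod_mul_distrib,
    Finset.prod_ite_eq' univ u, Finset.prod_ite_eq' univ v, if_pos (mem_univ _), if_pos (mem_univ _)]

/-- The multilinear extension of the forrelation. -/
noncomputable def g (q : ℕ) (W : VV q → ℝ) : ℝ :=
  (∑ a, ∑ b, hd q a b * (W (false, a) * W (true, b))) / 2 ^ q

theorem mle_phi (q : ℕ) : mle (phi q) = g q := by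
  funext W
  have h1 : mle (phi q) W = (∑ a, ∑ b, hd q a b *
      mle (fun p : VV q → Bool => sg (p (false, a)) * sg (p (true, b))) W) / 2 ^ q := by
    unfold mle phi
    rw [Finset.sum_congr rfl (fun y _ => (mul_div_assoc _ _ _).symm), ← Finset.sum_div]
    rw [Finset.sum_congr rfl (fun y _ => Finset.mul_sum _ _ _), Finset.sum_comm]
    rw [Finset.sum_congr rfl (fun a _ => Finset.sum_congr rfl (fun y _ => Finset.mul_sum _ _ _))]
    rw [Finset.sum_congr rfl (fun a _ => Finset.sum_comm)]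
    simp only [Finset.mul_sum]
    congr 1
    apply Finset.sum_congr rfl
    intro a _
    apply Finset.sum_congr rfl
    intro b _
    apply Finset.sum_congr rfl
    intro y _
    ring
  rw [h1]
  unfold g
  rw [Finset.sum_congr rfl (fun a _ => Finset.sum_congr rfl (fun b _ => by
    rw [mle_mul2 (VV q) (false, a) (true, b) (by simp) W]))]

/-- The indicator of the points where the walk is not stopped. -/
noncomputable def ok (q : ℕ) (W : VV q → ℝ) : ℝ := by
  classical exact if ∀ v, |W v| ≤ 1 / 2 then 1 else 0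

theorem ok_pos (q : ℕ) (W : VV q → ℝ) (h : ∀ v, |W v| ≤ 1 / 2) : ok q W = 1 := by
  unfold ok
  exact if_pos h

theorem ok_neg (q : ℕ) (W : VV q → ℝ) (h : ¬ ∀ v, |W v| ≤ 1 / 2) : ok q W = 0 := by
  unfold ok
  exact if_neg h

theorem ok_le_one (q : ℕ) (W : VV q → ℝ) : ok q W ≤ 1 := by
  by_cases h : ∀ v, |W v| ≤ 1 / 2
  · rw [ok_pos q W h]
  · rw [ok_neg q W h]; norm_num

theorem sum_hd2 (q : ℕ) : ∑ a, ∑ b, hd q a b * hd q a b = 2 ^ q := by
  have h : ∀ a, ∑ b, hd q a b * hd q a b = 1 := fun a => by rw [hd_orth, if_pos rfl]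
  rw [Finset.sum_congr rfl (fun a _ => h a), Finset.sum_const, Finset.card_univ, Fintype.card_fun,
    Fintype.card_bool, Fintype.card_fin]
  simp

theorem pair (h2 : T_DIR) (q : ℕ) (δ : ℝ) (W : VV q → ℝ) (a b : Fin q → Bool) :
    ∑ r : (Fin q → Bool) → Bool, (W (false, a) + δ * dir q r (false, a)) *
      (W (true, b) + δ * dir q r (true, b)) =
    2 ^ 2 ^ q * (W (false, a) * W (true, b)) + 2 ^ 2 ^ q * δ ^ 2 * hd q a b := by
  have h := h2 q
  have e : ∀ r : (Fin q → Bool) → Bool, (W (false, a) + δ * dir q r (false, a)) *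
      (W (true, b) + δ * dir q r (true, b)) = W (false, a) * W (true, b) +
      (W (false, a) * δ) * dir q r (true, b) + (δ * W (true, b)) * dir q r (false, a) +
      δ ^ 2 * (dir q r (false, a) * dir q r (true, b)) := fun r => by ring
  have e1 : ∑ r : (Fin q → Bool) → Bool, (W (false, a) * δ) * dir q r (true, b) = 0 := by
    rw [← Finset.mul_sum, h.2.1, mul_zero]
  have e2 : ∑ r : (Fin q → Bool) → Bool, (δ * W (true, b)) * dir q r (false, a) = 0 := by
    rw [← Finset.mul_sum, h.2.1, mul_zero]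
  have e3 : ∑ r : (Fin q → Bool) → Bool, δ ^ 2 * (dir q r (false, a) * dir q r (true, b)) =
      δ ^ 2 * (2 ^ 2 ^ q * hd q a b) := by
    rw [← Finset.mul_sum, h.2.2.2.1]
  have e4 : ∑ _r : (Fin q → Bool) → Bool, W (false, a) * W (true, b) =
      2 ^ 2 ^ q * (W (false, a) * W (true, b)) := by
    rw [Finset.sum_const, Finset.card_univ, nsmul_eq_mul, WLK.card_r]
  rw [Finset.sum_congr rfl (fun r _ => e r), Finset.sum_add_distrib, Finset.sum_add_distrib,
    Finset.sum_add_distrib, e1, e2, e3, e4]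
  ring

theorem AA_g (h2 : T_DIR) (q : ℕ) (δ : ℝ) (W : VV q → ℝ) :
    AA q δ (g q) W = g q W + δ ^ 2 * ok q W := by
  by_cases hW : ∀ v, |W v| ≤ 1 / 2
  · rw [DIF.AA_of_le q δ (g q) W hW, ok_pos q W hW]
    have e : ∑ r : (Fin q → Bool) → Bool, g q (fun v => W v + δ * dir q r v) =
        2 ^ 2 ^ q * (g q W + δ ^ 2) := by
      unfold g
      rw [← Finset.sum_div, Finset.sum_comm]
      rw [Finset.sum_congr rfl (fun a _ => Finset.sum_comm)]
      simp only [← Finset.mul_sum]
      rw [Finset.sum_congr rfl (fun a _ => Finset.sum_congr rfl (fun b _ => by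
        rw [pair h2 q δ W a b]))]
      have e2 : ∀ a b, hd q a b * (2 ^ 2 ^ q * (W (false, a) * W (true, b)) +
          2 ^ 2 ^ q * δ ^ 2 * hd q a b) = 2 ^ 2 ^ q * (hd q a b * (W (false, a) * W (true, b))) +
          2 ^ 2 ^ q * δ ^ 2 * (hd q a b * hd q a b) := fun a b => by ring
      rw [Finset.sum_congr rfl (fun a _ => Finset.sum_congr rfl (fun b _ => e2 a b))]
      simp only [Finset.sum_add_distrib, ← Finset.mul_sum]
      rw [sum_hd2]
      field_simp
    rw [e]
    field_simp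
  · rw [DIF.AA_of_not q δ (g q) W hW, ok_neg q W hW]
    ring

theorem AA_ok (q : ℕ) (δ : ℝ) (W : VV q → ℝ) : AA q δ (ok q) W ≤ ok q W := by
  by_cases hW : ∀ v, |W v| ≤ 1 / 2
  · rw [ok_pos q W hW]
    unfold AA
    rw [div_le_one (by positivity)]
    calc ∑ r : (Fin q → Bool) → Bool, ok q (stp q δ W r) ≤ ∑ r : (Fin q → Bool) → Bool, (1 : ℝ) :=
          Finset.sum_le_sum (fun r _ => ok_le_one q _)
      _ = 2 ^ 2 ^ q := by
          rw [Finset.sum_const, Finset.card_univ, nsmul_eq_mul, WLK.card_r, mul_one]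
  · rw [DIF.AA_of_not q δ (ok q) W hW]

theorem ok_anti (h1 : T_WLK) (q : ℕ) (n : ℕ) :
    (AA q (dl q))^[n + 1] (ok q) (fun _ => 0) ≤ (AA q (dl q))^[n] (ok q) (fun _ => 0) := by
  have h := h1 q (dl q) (MUP.dl_nonneg q) (MUP.dl_mul_sqrt q)
  rw [Function.iterate_succ_apply]
  exact h.2.1 n _ _ (fun W _ => AA_ok q (dl q) W) _ (fun v => by simp)

theorem ok_ge (h1 : T_WLK) (h4 : T_CSH) (q : ℕ) (n : ℕ) (hn : n ≤ Tn q) :
    1 / 2 ≤ (AA q (dl q))^[n] (ok q) (fun _ => 0) := by
  have hA : Antitone (fun n => (AA q (dl q))^[n] (ok q) (fun _ => 0)) :=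
    antitone_nat_of_succ_le (fun n => ok_anti h1 q n)
  have h5 : (AA q (dl q))^[Tn q] (ok q) (fun _ => 0) ≥ 1 / 2 := h4 q
  exact le_trans h5 (hA hn)

theorem g_step (h1 : T_WLK) (h2 : T_DIR) (q : ℕ) (n : ℕ) :
    (AA q (dl q))^[n + 1] (g q) (fun _ => 0) = (AA q (dl q))^[n] (g q) (fun _ => 0) +
      dl q ^ 2 * (AA q (dl q))^[n] (ok q) (fun _ => 0) := by
  have h := h1 q (dl q) (MUP.dl_nonneg q) (MUP.dl_mul_sqrt q)
  have h3 := h.2.2.1 n Bool (fun b => if b then 1 else dl q ^ 2) (fun b => if b then g q else ok q)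
    (fun _ => 0)
  have e : AA q (dl q) (g q) = fun W => ∑ b : Bool, (if b then (1 : ℝ) else dl q ^ 2) *
      (if b then g q else ok q) W := by
    funext W
    rw [Fintype.sum_bool, AA_g h2]
    simp
  rw [Function.iterate_succ_apply, e, h3, Fintype.sum_bool]
  simp only [if_true, Bool.false_eq_true, if_false, one_mul]

theorem g_ge (h1 : T_WLK) (h2 : T_DIR) (h4 : T_CSH) (q : ℕ) (n : ℕ) (hn : n ≤ Tn q) :
    n * (dl q ^ 2 / 2) ≤ (AA q (dl q))^[n] (g q) (fun _ => 0) := by
  induction n with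
  | zero => simp [g]
  | succ n ih =>
    rw [g_step h1 h2]
    have h5 := ih (by omega)
    have h6 := ok_ge h1 h4 q n (by omega)
    have h7 : dl q ^ 2 * (1 / 2) ≤ dl q ^ 2 * (AA q (dl q))^[n] (ok q) (fun _ => 0) :=
      mul_le_mul_of_nonneg_left h6 (by positivity)
    push_cast
    linarith

theorem t_phe (h1 : T_WLK) (h2 : T_DIR) (h3 : T_MUP) (h4 : T_CSH) : T_PHE := by
  intro q
  have e1 := (h3 true q).2.2 (phi q)
  simp only [if_true] at e1
  rw [e1, mle_phi]
  refine le_trans (le_of_eq ?_) (g_ge h1 h2 h4 q (Tn q) le_rfl)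
  have e2 : dl q ^ 2 = eps2 q / Tn q := by
    unfold dl
    exact Real.sq_sqrt (div_nonneg (MUP.eps2_nonneg q) (MUP.Tn_pos q).le)
  have h5 := MUP.Tn_pos q
  rw [e2]
  field_simp

end Pool.Agent.H48.NB.PHE
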